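import Pool.Agent.N293.TT.Targets
import Pool.Agent.Results.MP_bbe012_lc.StarshapedEqualityTest

/-!
# A test for the equality of periods which gives the right answer at all good rational approximations of almost all points

Consider the polynomial expressions with integer coefficients, of degree at most `d` in each of the variables `π`;
`K(s)`, `E(s)`, `K(1 - s)`, `E(1 - s)` for `s = (q_l - α_j) / (γ_j - α_j)`; `log q_l`, `Li_1(q_l)`, …, `Li_w(q_l)`, at
`n`-tuples `q` of fractions in `[a, b]`. The test of the starting result answers that two expressions are equal if they are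
formally equal (modulo the Legendre relations) and that they are not equal if they are not formally equal and their
approximate values are distinguishable; its answers are right, but it may give none. We show that at all good rational
approximations of a typical real point the test always answers: there are `β < 2` and `B` such that for all `ρ > 0` and all
points `ξ` of `ℝⁿ` outside a set of Hausdorff dimension at most `(2 (n - 1) + β) / ρ` and each `c`, the test gives the right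
answer for ALL `n`-tuples `q` of fractions in `[a, b]` with `|ξ_j - q_j| ≤ c H ^ (-ρ)` for all `j`, `H` the largest
denominator, if `H` is large enough, for all expressions with coefficients at most `H ^ A`, from approximations of their
values with error at most `H ^ (-B)`. For `ρ = 2` the bound of the dimension is less than `n`, and so this holds for almost
all `ξ`; for `n = 1` it holds at all (large) convergents of almost every real number.

Proof. The tuples at which the test fails to answer, at the precision given by their own height, are `O(X ^ (2 (n - 1) + β))`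
in number up to height `X` by the starting theorem; and the points which have infinitely many of them at the distance
`c H ^ (-ρ)` are covered by few small cubes.
-/

set_option autoImplicit false

namespace Pool.Agent.Results.MP_bbe012_lc.RationalApproximations

open ErrorlessOnAlmostAll (Name value test)
open StarshapedEqualityTest (NoAns noAns_mono)
open MeasureTheory

/-- The largest denominator of the fractions `q j` (the norm of `Fin n → ℝ` is the maximum norm). -/
noncomputable def maxDen {n : ℕ} (q : Fin n → ℚ) : ℝ := ‖(fun j => ((q j).den : ℝ) : Fin n → ℝ)‖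

/-- The test with precision `H ^ (-B)` gives the right answer at the tuple `q` with largest denominator `H`: for all
expressions of degree at most `d` in each variable with coefficients of absolute value at most `H ^ A` and all
approximations of their values with error at most `H ^ (-B)`. -/
def Right (N n w d : ℕ) (α γ : Fin N → ℝ) (A B : ℝ) (q : Fin n → ℚ) : Prop :=
  ∀ P₁ P₂ : MvPolynomial (Name N n w) ℤ, (∀ z, P₁.degreeOf z ≤ d ∧ P₂.degreeOf z ≤ d) →
    (∀ s, |((P₁.coeff s : ℤ) : ℝ)| ≤ (maxDen q) ^ A ∧ |((P₂.coeff s : ℤ) : ℝ)| ≤ (maxDen q) ^ A) →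
      ∀ v₁ v₂ : ℝ, |v₁ - value α γ q P₁| ≤ (maxDen q) ^ (-B) → |v₂ - value α γ q P₂| ≤ (maxDen q) ^ (-B) →
        (test d P₁ P₂ v₁ v₂ ((maxDen q) ^ (-B)) = some true ∧ value α γ q P₁ = value α γ q P₂) ∨
        (test d P₁ P₂ v₁ v₂ ((maxDen q) ^ (-B)) = some false ∧ value α γ q P₁ ≠ value α γ q P₂)

lemma norm_eq {n : ℕ} (hn : 1 ≤ n) {a b : ℝ} (ha : 0 < a) (hb : b < 1) (q : Fin n → ℚ) (hq : ∀ j, a ≤ q j ∧ q j ≤ b) :
    ‖(fun j => (((q j).den : ℝ), ((q j).num : ℝ)) : Fin n → ℝ × ℝ)‖ = maxDen q := by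
  have : Nonempty (Fin n) := ⟨⟨0, hn⟩⟩
  apply le_antisymm
  · rw [pi_norm_le_iff_of_nonempty]
    intro j
    have h1 : ((q j).den : ℝ) ≤ maxDen q := by
      refine le_trans (le_abs_self _) ?_
      exact norm_le_pi_norm (fun j => ((q j).den : ℝ) : Fin n → ℝ) j
    have hd : (0 : ℝ) < (q j).den := by exact_mod_cast (q j).den_pos
    have h2 : ((q j : ℚ) : ℝ) = ((q j).num : ℝ) / ((q j).den : ℝ) := by
      exact_mod_cast (Rat.num_div_den (q j)).symm
    have h3 := hq j
    have h4 : ((q j).num : ℝ) = (q j : ℝ) * ((q j).den : ℝ) := by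
      rw [h2, div_mul_cancel₀ _ hd.ne']
    rw [Prod.norm_def]
    refine max_le ?_ ?_
    · show ‖((q j).den : ℝ)‖ ≤ _
      rw [Real.norm_of_nonneg hd.le]
      exact h1
    · show ‖((q j).num : ℝ)‖ ≤ _
      rw [h4, Real.norm_of_nonneg (by nlinarith)]
      nlinarith
  · unfold maxDen
    rw [pi_norm_le_iff_of_nonempty]
    intro j
    refine le_trans ?_ (norm_le_pi_norm (fun j => (((q j).den : ℝ), ((q j).num : ℝ)) : Fin n → ℝ × ℝ) j)
    exact norm_fst_le (((q j).den : ℝ), ((q j).num : ℝ))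

lemma one_le_maxDen {n : ℕ} (hn : 1 ≤ n) (q : Fin n → ℚ) : 1 ≤ maxDen q := by
  have h1 : ((q ⟨0, hn⟩).den : ℝ) ≤ maxDen q := by
    refine le_trans (le_abs_self _) ?_
    exact norm_le_pi_norm (fun j => ((q j).den : ℝ) : Fin n → ℝ) ⟨0, hn⟩
  have h2 : (1 : ℝ) ≤ (q ⟨0, hn⟩).den := by exact_mod_cast (q ⟨0, hn⟩).den_pos
  linarith

/-- **Theorem.** Let `0 < a < b < 1`, `α_j < a`, `b < γ_j`, where `α_1 > α_2 > ⋯ > 0` and `γ_1 < γ_2 < ⋯ < 1`, let `A ≥ 0` and
`n ≥ 1`. There are `β < 2` and `B` such that: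
(1) for all `ρ > 0` there is a set `E` of Hausdorff dimension at most `(2 (n - 1) + β) / ρ` such that for all points `ξ` of
`ℝⁿ` outside `E` and each `c`, for ALL `n`-tuples `q` of fractions in `[a, b]` with `|ξ_j - q_j| ≤ c H ^ (-ρ)` for all `j`,
`H` the largest denominator, `H` large enough, the test gives the right answer (`Right`);
(2) for almost all points `ξ` of `ℝⁿ` and each `c` this is so with `ρ = 2`. -/
theorem result {N : ℕ} (n w d : ℕ) (hn : 1 ≤ n) (α γ : Fin N → ℝ) (hα : StrictAnti α) (hγ : StrictMono γ)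
    (hα0 : ∀ j, 0 < α j) (hγ1 : ∀ j, γ j < 1) (a b : ℝ) (ha : 0 < a) (hab : a < b) (hb : b < 1)
    (h : ∀ j, α j < a ∧ b < γ j) (A : ℝ) (hA : 0 ≤ A) :
    ∃ β B : ℝ, β < 2 ∧
      (∀ ρ : ℝ, 0 < ρ → ∃ E : Set (Fin n → ℝ), dimH E ≤ ENNReal.ofReal ((2 * ((n : ℝ) - 1) + β) / ρ) ∧
        ∀ ξ : Fin n → ℝ, ξ ∉ E → ∀ c : ℝ, ∃ X₀ : ℝ, ∀ q : Fin n → ℚ, (∀ j, a ≤ q j ∧ q j ≤ b) → X₀ ≤ maxDen q →
          (∀ j, |ξ j - q j| ≤ c * (maxDen q) ^ (-ρ)) → Right N n w d α γ A B q) ∧
      (∀ᵐ ξ : Fin n → ℝ, ∀ c : ℝ, ∃ X₀ : ℝ, ∀ q : Fin n → ℚ, (∀ j, a ≤ q j ∧ q j ≤ b) → X₀ ≤ maxDen q →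
          (∀ j, |ξ j - q j| ≤ c / (maxDen q) ^ 2) → Right N n w d α γ A B q) := by
  have hne : Nonempty (Fin n) := ⟨⟨0, hn⟩⟩
  obtain ⟨hsound, β, B0, C0, hβ, h0⟩ := ErrorlessOnAlmostAll.result n w d hn α γ hα hγ hα0 hγ1 a b ha hab hb h A hA
  have hn' : (1 : ℝ) ≤ n := by exact_mod_cast hn
  have hβ1 : (1 : ℝ) ≤ max β 1 := le_max_right _ _
  set I : Set (Fin n → ℚ) := {q | ∀ j, a ≤ q j ∧ q j ≤ b} with hI
  set V : (Fin n → ℚ) → (Fin n → ℝ × ℝ) := fun q => (fun j => (((q j).den : ℝ), ((q j).num : ℝ))) with hV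
  obtain ⟨C', hC'⟩ := Pool.Agent.R482.ST.dyadic I V (fun q X => ∀ j, ((q j).den : ℝ) ≤ X)
    (fun q M δ => NoAns N n w d α γ q M δ)
    (fun q X h j => by
      have h1 := (norm_le_pi_norm (V q) j).trans h
      refine le_trans ?_ ((norm_fst_le _).trans h1)
      exact le_abs_self _)
    (fun q M δ M' δ' h1 h2 h3 => noAns_mono h1 h2 h3)
    (fun X => by
      refine (Set.Finite.pi' fun j : Fin n => Pool.Agent.R482.ST.finite_rat X).subset fun q hq j => ?_
      have hq : ‖V q‖ ≤ X := hq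
      have h1 := (norm_le_pi_norm (V q) j).trans hq
      exact ⟨(le_abs_self _).trans ((norm_fst_le (V q j)).trans h1), (norm_snd_le (V q j)).trans h1⟩)
    (A := A) (B := B0) (C := |C0|) (s := 2 * ((n : ℝ) - 1) + max β 1) hA (by linarith) (fun X hX => by
      have he : {t : Fin n → ℚ | t ∈ I ∧ (∀ j, ((t j).den : ℝ) ≤ X) ∧
          NoAns N n w d α γ t (X ^ A) (X ^ (-B0))} = ErrorlessOnAlmostAll.NoAnswer N n w d α γ a b A B0 X := by
        ext q
        constructor
        · rintro ⟨h1, h2, h3⟩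
          exact ⟨fun j => ⟨(h1 j).1, (h1 j).2, h2 j⟩, h3⟩
        · rintro ⟨h1, h3⟩
          exact ⟨fun j => ⟨(h1 j).1, (h1 j).2.1⟩, fun j => (h1 j).2.2, h3⟩
      rw [he]
      refine ⟨(h0 X hX).1, (h0 X hX).2.trans ?_⟩
      have hX0 : 0 < X := by linarith
      exact mul_le_mul (le_abs_self _) (Real.rpow_le_rpow_of_exponent_le hX (by linarith [le_max_left β 1]))
        (by positivity) (abs_nonneg _))
  set B : ℝ := |B0| + 1 with hB
  have hB0 : 0 ≤ B := by positivity
  set S : Set (Fin n → ℚ) := {q | q ∈ I ∧ NoAns N n w d α γ q ((maxDen q) ^ A) ((maxDen q) ^ (-B))} with hS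
  -- the test answers outside S
  have hright : ∀ q : Fin n → ℚ, (∀ j, a ≤ q j ∧ q j ≤ b) → q ∉ S → Right N n w d α γ A B q := by
    intro q hq hqS P₁ P₂ g1 g2 v₁ v₂ g3 g4
    have h3 := hsound q hq P₁ P₂ v₁ v₂ _ g3 g4
    rcases ht : test d P₁ P₂ v₁ v₂ ((maxDen q) ^ (-B)) with _ | b'
    · exact absurd ⟨hq, P₁, P₂, g1, g2, v₁, v₂, g3, g4, ht⟩ hqS
    · cases b' with
      | true => exact Or.inl ⟨rfl, h3.1 ht⟩
      | false => exact Or.inr ⟨rfl, h3.2 ht⟩
  have hcount : ∀ ε : ℝ, 0 < ε → ∃ C : ℝ, ∀ X : ℝ, 1 ≤ X →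
      {q | q ∈ S ∧ maxDen q ≤ X}.Finite ∧
        ({q | q ∈ S ∧ maxDen q ≤ X}.ncard : ℝ) ≤ C * X ^ (2 * ((n : ℝ) - 1) + max β 1 + ε) := by
    intro ε hε
    refine ⟨|C'|, fun X hX => ?_⟩
    have hX0 : 0 < X := by linarith
    have hsub : {q | q ∈ S ∧ maxDen q ≤ X} ⊆
        {t | (t ∈ I ∧ NoAns N n w d α γ t ((2 * ‖V t‖) ^ A) ((‖V t‖ / 2) ^ (-(|B0| + 1)))) ∧ ‖V t‖ ≤ X} := by
      rintro q ⟨⟨h1, h2⟩, h3⟩
      have e : ‖V q‖ = maxDen q := norm_eq hn ha hb q h1
      have h4 := one_le_maxDen hn q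
      refine ⟨⟨h1, ?_⟩, by rw [e]; exact h3⟩
      rw [e]
      refine noAns_mono ?_ ?_ h2
      · exact Real.rpow_le_rpow (by linarith) (by linarith) hA
      · exact Real.rpow_le_rpow_of_nonpos (by linarith) (by linarith) (by rw [hB] at hB0; linarith)
    refine ⟨(hC' X hX).1.subset hsub, ?_⟩
    calc ({q | q ∈ S ∧ maxDen q ≤ X}.ncard : ℝ)
        ≤ ({t | (t ∈ I ∧ NoAns N n w d α γ t ((2 * ‖V t‖) ^ A) ((‖V t‖ / 2) ^ (-(|B0| + 1)))) ∧
            ‖V t‖ ≤ X}.ncard : ℝ) := by exact_mod_cast Set.ncard_le_ncard hsub (hC' X hX).1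
      _ ≤ C' * X ^ (2 * ((n : ℝ) - 1) + max β 1) := (hC' X hX).2
      _ ≤ |C'| * X ^ (2 * ((n : ℝ) - 1) + max β 1 + ε) :=
          mul_le_mul (le_abs_self _) (Real.rpow_le_rpow_of_exponent_le hX (by linarith)) (by positivity)
            (abs_nonneg _)
  have hmain : ∀ ρ : ℝ, 0 < ρ →
      ∃ E : Set (Fin n → ℝ), dimH E ≤ ENNReal.ofReal ((2 * ((n : ℝ) - 1) + max β 1) / ρ) ∧
        ∀ ξ : Fin n → ℝ, ξ ∉ E → ∀ c : ℝ, ∃ X₀ : ℝ, ∀ q : Fin n → ℚ, (∀ j, a ≤ q j ∧ q j ≤ b) → X₀ ≤ maxDen q →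
          (∀ j, |ξ j - q j| ≤ c * (maxDen q) ^ (-ρ)) → Right N n w d α γ A B q := by
    intro ρ hρ
    obtain ⟨E, hE, h1⟩ := Pool.Agent.N293.TT.targets S maxDen (fun q => (fun j => (q j : ℝ) : Fin n → ℝ))
      (s := 2 * ((n : ℝ) - 1) + max β 1) (by linarith) hρ (fun q _ => one_le_maxDen hn q) hcount
    refine ⟨E, hE, fun ξ hξ c => ?_⟩
    obtain ⟨X₀, h2⟩ := h1 ξ hξ c
    refine ⟨X₀, fun q hq hX hnear => hright q hq fun hqS => ?_⟩
    refine absurd (h2 q hqS ?_) (not_lt.2 hX)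
    rw [pi_norm_le_iff_of_nonempty]
    exact hnear
  refine ⟨max β 1, B, max_lt hβ (by norm_num), hmain, ?_⟩
  obtain ⟨E, hE, h1⟩ := hmain 2 (by norm_num)
  have hvol : volume E = 0 := by
    have hlt : dimH E < ((n : NNReal) : ENNReal) := by
      refine lt_of_le_of_lt hE ?_
      rw [ENNReal.coe_natCast, ← ENNReal.ofReal_natCast]
      apply (ENNReal.ofReal_lt_ofReal_iff (by linarith)).2
      have : max β 1 < 2 := max_lt hβ (by norm_num)
      linarith
    have habs : (volume : Measure (Fin n → ℝ)) ≪ μH[((n : NNReal) : ℝ)] := by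
      have e := hausdorffMeasure_pi_real (ι := Fin n)
      rw [Fintype.card_fin] at e
      rw [show (((n : NNReal)) : ℝ) = (n : ℝ) by simp, e]
    exact measure_zero_of_dimH_lt habs hlt
  filter_upwards [measure_eq_zero_iff_ae_notMem.1 hvol] with ξ hξ c
  obtain ⟨X₀, h2⟩ := h1 ξ hξ c
  refine ⟨X₀, fun q hq hX hnear => h2 q hq hX fun j => (hnear j).trans (le_of_eq ?_)⟩
  have h4 := one_le_maxDen hn q
  rw [Real.rpow_neg (by linarith), div_eq_mul_inv]
  norm_num

end Pool.Agent.Results.MP_bbe012_lc.RationalApproximations
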